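import Pool.Agent.Helper18_X2.Stmts

/-! AWC, part X2, module ALT (helper39): the three alternatives for one orbit. -/

set_option autoImplicit false

namespace Pool.Agent.PP.X2.H39

open Pool.Agent.Helper51_AWC Pool.Agent.Helper79_WRA Pool.Agent.PP Pool.Agent.PP.X2

theorem alt (h1 : QmcStmt) (h2 : LybStmt) (h3 : FxiStmt) (h4 : LfcStmt) : AltStmt := by
  intro ℓ _ 𝒜 hA S _ _ hS hlS hAS Q hQ C _ _ π hπ hk hl
  obtain ⟨l1, l2, l3⟩ := h4 ℓ 𝒜 C (fixN Q) π hπ hk hl
  by_cases hin : Q ⊓ (MulAut.conj (G := S)).range = ⊥
  · by_cases hQ0 : Q = ⊥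
    · right; left
      -- `C` is a central extension of `S`
      have htop : ∀ s : S, s ∈ fixN Q := by
        intro s
        subst hQ0
        intro q hq
        rw [Subgroup.mem_bot] at hq
        subst hq
        rfl
      obtain ⟨f, hf⟩ : ∃ f : C →* S, f = (fixN Q).subtype.comp π := ⟨_, rfl⟩
      have hfs : Function.Surjective f := by
        intro s
        obtain ⟨c, hc⟩ := hπ ⟨s, htop s⟩
        refine ⟨c, ?_⟩
        rw [hf, MonoidHom.comp_apply, hc]
        rfl
      have hker : f.ker = π.ker := by
        ext c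
        rw [MonoidHom.mem_ker, MonoidHom.mem_ker, hf, MonoidHom.comp_apply]
        exact ⟨fun h => Subtype.ext h, fun h => by rw [h]; rfl⟩
      obtain ⟨q1, q2, q3, q4⟩ := h1 C S hS f hfs (by rw [hker]; exact hk)
      have hLay : Lay ℓ 𝒜 (commutator C) := by
        refine ⟨Unit, inferInstance, fun _ => commutator C, ?_, ?_, ?_⟩
        · intro i j hij
          exact absurd (Subsingleton.elim i j) hij
        · exact iSup_const
        · intro _
          exact ⟨S, inferInstance, inferInstance, hS, hlS, hAS, q1⟩
      have hOup : Oup ℓ C = commutator C := by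
        apply le_antisymm
        · unfold Oup
          rw [Subgroup.closure_le]
          rintro x ⟨n, hx⟩
          obtain ⟨y, hy, z, hz, rfl⟩ := q4 x
          have hzk : z ∈ π.ker := by rw [← hker, q3]; exact hz
          have hzm : z ^ Nat.card π.ker = 1 := by
            have := pow_card_eq_one' (x := (⟨z, hzk⟩ : π.ker))
            exact congrArg Subtype.val this
          obtain ⟨a, ha⟩ : ∃ a : C ⧸ commutator C, a = QuotientGroup.mk (y * z) := ⟨_, rfl⟩
          have hyz : a = QuotientGroup.mk z := by
            rw [ha]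
            have : ((y * z : C) : C ⧸ commutator C) = (y : C ⧸ commutator C) * (z : C ⧸ commutator C) := rfl
            rw [this, (QuotientGroup.eq_one_iff y).mpr hy, one_mul]
          have ha1 : a ^ ℓ ^ n = 1 := by
            rw [ha, ← QuotientGroup.mk_pow, hx]
            rfl
          have ha2 : a ^ Nat.card π.ker = 1 := by
            rw [hyz, ← QuotientGroup.mk_pow, hzm]
            rfl
          have hcop : Nat.Coprime (ℓ ^ n) (Nat.card π.ker) :=
            Nat.Coprime.pow_left n ((Nat.Prime.coprime_iff_not_dvd Fact.out).mpr hl)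
          have hord : orderOf a = 1 := Nat.eq_one_of_dvd_coprimes hcop
            (orderOf_dvd_of_pow_eq_one ha1) (orderOf_dvd_of_pow_eq_one ha2)
          rw [orderOf_eq_one_iff, ha] at hord
          exact (QuotientGroup.eq_one_iff (y * z)).mp hord
        · refine (h2 ℓ 𝒜 C (commutator C) hLay).2.2.trans ?_
          unfold Oup
          apply Subgroup.closure_mono
          rintro x ⟨_, hx⟩
          exact hx
      rw [hOup]
      exact hLay
    · rcases hA S hS hlS hAS Q hQ0 hQ hin with h | h | h
      · exact Or.inl (l1 h)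
      · exact Or.inr (Or.inl (l2 h))
      · exact Or.inr (Or.inr (l3 h))
  · exact Or.inl (l1 (h3 ℓ S hS Q hQ hin))

end Pool.Agent.PP.X2.H39
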