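import Pool.Agent.Helper18_X2.Stmts

/-! AWC, part X2, module QMC (helper39): central extensions of a nonabelian simple group. -/

set_option autoImplicit false

namespace Pool.Agent.PP.X2.H39

open Pool.Agent.Helper51_AWC Pool.Agent.Helper79_WRA Pool.Agent.PP Pool.Agent.PP.X2
open scoped commutatorElement

theorem qmc : QmcStmt := by
  intro A S _ _ hS f hf hk
  have := hS.1
  obtain ⟨a, b, hab⟩ := hS.2
  -- the commutator subgroup and the center of `S`
  have hcomm : commutator S = ⊤ := by
    rcases (inferInstance : (commutator S).Normal).eq_bot_or_eq_top with h | h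
    · exfalso
      apply hab
      have : ⁅a, b⁆ ∈ commutator S := Subgroup.commutator_mem_commutator (Subgroup.mem_top a)
        (Subgroup.mem_top b)
      rw [h, Subgroup.mem_bot, commutatorElement_eq_one_iff_mul_comm] at this
      exact this
    · exact h
  have hcen : Subgroup.center S = ⊥ := by
    rcases (inferInstance : (Subgroup.center S).Normal).eq_bot_or_eq_top with h | h
    · exact h
    · exfalso
      apply hab
      have : a ∈ Subgroup.center S := by rw [h]; exact Subgroup.mem_top a
      exact ((Subgroup.mem_center_iff.mp this) b).symm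
  have h2 : (commutator A).map f = ⊤ := by
    rw [commutator_def, Subgroup.map_commutator, Subgroup.map_top_of_surjective f hf, ← commutator_def]
    exact hcomm
  have h4 : ∀ x : A, ∃ y ∈ commutator A, ∃ z ∈ Subgroup.center A, x = y * z := by
    intro x
    have hx : f x ∈ (commutator A).map f := by rw [h2]; exact Subgroup.mem_top _
    obtain ⟨y, hy, hyx⟩ := hx
    refine ⟨y, hy, y⁻¹ * x, hk ?_, by group⟩
    rw [MonoidHom.mem_ker, map_mul, map_inv, hyx, inv_mul_cancel]
  have h3 : f.ker = Subgroup.center A := by
    apply le_antisymm hk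
    intro z hz
    rw [MonoidHom.mem_ker]
    have : f z ∈ Subgroup.center S := by
      rw [Subgroup.mem_center_iff]
      intro s
      obtain ⟨a, rfl⟩ := hf s
      rw [← map_mul, ← map_mul, (Subgroup.mem_center_iff.mp hz) a]
    rw [hcen, Subgroup.mem_bot] at this
    exact this
  refine ⟨⟨?_, ?_⟩, h2, h3, h4⟩
  · -- perfect
    have hle : commutator A ≤ ⁅commutator A, commutator A⁆ := by
      rw [commutator_def, Subgroup.commutator_le]
      intro x _ y _
      obtain ⟨a, ha, z, hz, rfl⟩ := h4 x
      obtain ⟨b, hb, w, hw, rfl⟩ := h4 y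
      have e : ⁅a * z, b * w⁆ = ⁅a, b⁆ := by
        have cz := fun u => (Subgroup.mem_center_iff.mp hz) u
        have cw := fun u => (Subgroup.mem_center_iff.mp hw) u
        have cz' := fun u => (Subgroup.mem_center_iff.mp ((Subgroup.center A).inv_mem hz)) u
        have cw' := fun u => (Subgroup.mem_center_iff.mp ((Subgroup.center A).inv_mem hw)) u
        rw [commutatorElement_def, commutatorElement_def]
        calc a * z * (b * w) * (a * z)⁻¹ * (b * w)⁻¹
            = a * (z * (b * w)) * (z⁻¹ * a⁻¹) * (w⁻¹ * b⁻¹) := by group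
          _ = a * ((b * w) * z) * (z⁻¹ * a⁻¹) * (w⁻¹ * b⁻¹) := by rw [cz]
          _ = a * b * (w * a⁻¹) * (w⁻¹ * b⁻¹) := by group
          _ = a * b * (a⁻¹ * w) * (w⁻¹ * b⁻¹) := by rw [cw]
          _ = a * b * a⁻¹ * b⁻¹ := by group
      rw [e]
      exact Subgroup.commutator_mem_commutator ha hb
    rw [eq_top_iff]
    intro x _
    have hx := hle x.2
    rw [← Subgroup.map_subtype_commutator] at hx
    obtain ⟨y, hy, hyx⟩ := hx
    have : y = x := Subtype.ext hyx
    rw [← this]
    exact hy
  · refine ⟨f.comp (commutator A).subtype, ?_, ?_⟩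
    · intro s
      have hs : s ∈ (commutator A).map f := by rw [h2]; exact Subgroup.mem_top _
      obtain ⟨y, hy, rfl⟩ := hs
      exact ⟨⟨y, hy⟩, rfl⟩
    · intro x hx
      rw [Subgroup.mem_center_iff]
      intro y
      have hxk : (x : A) ∈ f.ker := hx
      exact Subtype.ext ((Subgroup.mem_center_iff.mp (hk hxk)) y)

end Pool.Agent.PP.X2.H39
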